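import Mathlib
import Pool.Agent.Lib_helper66.DHJ

set_option autoImplicit false

open Finset Function Combinatorics
open scoped BigOperators

namespace Pool.Agent.Results.MP_bc5946_co.LimitOne

/-- `𝓑` is the block collection of a `2-(v,3,1)` design (Steiner triple system) on the finite point
set `V`: every block has three points and every two distinct points lie in exactly one block. -/
def IsSTS {V : Type} (𝓑 : Finset (Finset V)) : Prop :=
  (∀ B ∈ 𝓑, B.card = 3) ∧ ∀ x y : V, x ≠ y → ∃! B, B ∈ 𝓑 ∧ x ∈ B ∧ y ∈ B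

/-- `S` is a defining set of the design `(V, 𝓑)`: `S` consists of blocks of the design and `𝓑` is
the only `2-(v,3,1)` design on the labelled point set `V` whose block collection contains `S`. -/
def IsDefiningSet {V : Type} (𝓑 S : Finset (Finset V)) : Prop :=
  S ⊆ 𝓑 ∧ ∀ 𝓑' : Finset (Finset V), IsSTS 𝓑' → S ⊆ 𝓑' → 𝓑' = 𝓑

/-- The points of `PG(n,2)`: the nonzero vectors of `𝔽₂ⁿ⁺¹`. -/
abbrev Pt (n : ℕ) : Type := {v : Fin (n + 1) → ZMod 2 // v ≠ 0}

/-- The lines of `PG(n,2)`: the sets of three distinct points (nonzero vectors) with sum zero. -/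
def lines (n : ℕ) : Finset (Finset (Pt n)) :=
  {B | B.card = 3 ∧ ∑ p ∈ B, (p : Fin (n + 1) → ZMod 2) = 0}

/-- The smallest size of a defining set of the design `P_n` of points and lines of `PG(n,2)`. -/
noncomputable def minDef (n : ℕ) : ℕ :=
  sInf {s : ℕ | ∃ S : Finset (Finset (Pt n)), IsDefiningSet (lines n) S ∧ S.card = s}

/-- `μ_n`: the smallest size of a defining set of `P_n` divided by the number
`b_n = (2ⁿ⁺¹ - 1)(2ⁿ⁺¹ - 2)/6` of blocks of `P_n`. -/
noncomputable def mu (n : ℕ) : ℝ :=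
  (minDef n : ℝ) / (((2 : ℝ) ^ (n + 1) - 1) * ((2 : ℝ) ^ (n + 1) - 2) / 6)

/-! ### Steiner triple systems and the Pasch switch -/

lemma isSTS_iff {V : Type} [DecidableEq V] (𝓑 : Finset (Finset V)) :
    IsSTS 𝓑 ↔ (∀ B ∈ 𝓑, B.card = 3) ∧
      ∀ x y : V, x ≠ y → #{B ∈ 𝓑 | x ∈ B ∧ y ∈ B} = 1 := by
  unfold IsSTS
  refine and_congr_right fun _ => forall_congr' fun x => forall_congr' fun y =>
    forall_congr' fun _ => ?_
  rw [Finset.card_eq_one]
  constructor
  · rintro ⟨B, hB, huniq⟩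
    refine ⟨B, ?_⟩
    ext C
    simp only [mem_filter, mem_singleton]
    exact ⟨fun h => huniq C h, fun h => h ▸ hB⟩
  · rintro ⟨B, hB⟩
    have h1 : ∀ C, C ∈ ({B ∈ 𝓑 | x ∈ B ∧ y ∈ B} : Finset (Finset V)) ↔ C = B := by
      intro C; rw [hB, mem_singleton]
    refine ⟨B, ?_, fun C hC => ?_⟩
    · simpa using (h1 B).2 rfl
    · exact (h1 C).1 (by simpa using hC)

/-- The Pasch configuration. -/
def pasch1 : Finset (Finset (Fin 6)) := {{0, 2, 4}, {1, 2, 5}, {0, 3, 5}, {1, 3, 4}}

/-- The other Pasch configuration on the same points. -/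
def pasch2 : Finset (Finset (Fin 6)) := {{0, 2, 5}, {1, 2, 4}, {0, 3, 4}, {1, 3, 5}}

lemma pasch_pairs : ∀ i j : Fin 6, i ≠ j →
    #{b ∈ pasch1 | i ∈ b ∧ j ∈ b} = #{b ∈ pasch2 | i ∈ b ∧ j ∈ b} := by
  decide

lemma pasch2_meets : ∀ c ∈ pasch2, ∃ b ∈ pasch1, b ≠ c ∧ ∃ i ∈ b, ∃ j ∈ b, i ≠ j ∧ i ∈ c ∧ j ∈ c := by
  decide

lemma pasch1_card : ∀ b ∈ pasch1, b.card = 3 := by decide

lemma pasch2_card : ∀ b ∈ pasch2, b.card = 3 := by decide

/-- The image of a configuration. -/
def img {V : Type} [DecidableEq V] (pt : Fin 6 ↪ V) (t : Finset (Finset (Fin 6))) :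
    Finset (Finset V) := t.image (fun b => b.map pt)

lemma img_count {V : Type} [DecidableEq V] (pt : Fin 6 ↪ V) (t : Finset (Finset (Fin 6)))
    (i j : Fin 6) : #{B ∈ img pt t | pt i ∈ B ∧ pt j ∈ B} = #{b ∈ t | i ∈ b ∧ j ∈ b} := by
  have h : ({B ∈ img pt t | pt i ∈ B ∧ pt j ∈ B} : Finset (Finset V))
      = ({b ∈ t | i ∈ b ∧ j ∈ b} : Finset (Finset (Fin 6))).image (fun b => b.map pt) := by
    ext B
    simp only [img, mem_filter, mem_image]
    constructor
    · rintro ⟨⟨b, hb, rfl⟩, h1, h2⟩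
      exact ⟨b, ⟨hb, by simpa using h1, by simpa using h2⟩, rfl⟩
    · rintro ⟨b, ⟨hb, h1, h2⟩, rfl⟩
      exact ⟨⟨b, hb, rfl⟩, by simpa using h1, by simpa using h2⟩
  rw [h, Finset.card_image_of_injective _ (Finset.map_injective pt)]

lemma img_count_zero {V : Type} [DecidableEq V] (pt : Fin 6 ↪ V) (t : Finset (Finset (Fin 6)))
    (x y : V) (h : x ∉ Set.range pt ∨ y ∉ Set.range pt) :
    #{B ∈ img pt t | x ∈ B ∧ y ∈ B} = 0 := by
  rw [Finset.card_eq_zero, Finset.filter_eq_empty_iff]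
  intro B hB hxy
  obtain ⟨b, -, rfl⟩ := mem_image.1 hB
  simp only [mem_map] at hxy
  obtain ⟨⟨i, -, hi⟩, ⟨j, -, hj⟩⟩ := hxy
  rcases h with h | h
  · exact h ⟨i, hi⟩
  · exact h ⟨j, hj⟩

/-- Switching a Pasch configuration of a Steiner triple system. -/
lemma sts_switch {V : Type} [DecidableEq V] (𝓑 : Finset (Finset V)) (h𝓑 : IsSTS 𝓑)
    (pt : Fin 6 ↪ V) (hpt : img pt pasch1 ⊆ 𝓑) :
    IsSTS ((𝓑 \ img pt pasch1) ∪ img pt pasch2) ∧ Disjoint 𝓑 (img pt pasch2) := by
  have hdisj : Disjoint 𝓑 (img pt pasch2) := by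
    rw [Finset.disjoint_right]
    intro C hC hC𝓑
    obtain ⟨c, hc, rfl⟩ := mem_image.1 hC
    obtain ⟨b, hb, hbc, i, hi, j, hj, hij, hi', hj'⟩ := pasch2_meets c hc
    obtain ⟨B, -, huniq⟩ := h𝓑.2 (pt i) (pt j) (fun h => hij (pt.injective h))
    have h1 := huniq (b.map pt) ⟨hpt (mem_image_of_mem _ hb), by simpa using hi, by simpa using hj⟩
    have h2 := huniq (c.map pt) ⟨hC𝓑, by simpa using hi', by simpa using hj'⟩
    exact hbc (Finset.map_injective pt (h1.trans h2.symm))
  refine ⟨?_, hdisj⟩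
  rw [isSTS_iff] at h𝓑 ⊢
  refine ⟨?_, ?_⟩
  · intro B hB
    rcases mem_union.1 hB with hB | hB
    · exact h𝓑.1 B (mem_sdiff.1 hB).1
    · obtain ⟨c, hc, rfl⟩ := mem_image.1 hB
      rw [Finset.card_map]
      exact pasch2_card c hc
  · intro x y hxy
    have h1 := h𝓑.2 x y hxy
    have h2 : #{B ∈ img pt pasch1 | x ∈ B ∧ y ∈ B} = #{B ∈ img pt pasch2 | x ∈ B ∧ y ∈ B} := by
      by_cases hx : x ∈ Set.range pt
      · by_cases hy : y ∈ Set.range pt
        · obtain ⟨i, rfl⟩ := hx
          obtain ⟨j, rfl⟩ := hy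
          rw [img_count, img_count]
          exact pasch_pairs i j (fun h => hxy (by rw [h]))
        · rw [img_count_zero pt _ x y (Or.inr hy), img_count_zero pt _ x y (Or.inr hy)]
      · rw [img_count_zero pt _ x y (Or.inl hx), img_count_zero pt _ x y (Or.inl hx)]
    have h3 : ({B ∈ (𝓑 \ img pt pasch1) ∪ img pt pasch2 | x ∈ B ∧ y ∈ B} : Finset (Finset V))
        = (({B ∈ 𝓑 | x ∈ B ∧ y ∈ B} : Finset (Finset V)) \
            ({B ∈ img pt pasch1 | x ∈ B ∧ y ∈ B} : Finset (Finset V))) ∪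
          ({B ∈ img pt pasch2 | x ∈ B ∧ y ∈ B} : Finset (Finset V)) := by
      ext B
      simp only [Finset.mem_filter, Finset.mem_union, Finset.mem_sdiff]
      tauto
    have h4 : Disjoint (({B ∈ 𝓑 | x ∈ B ∧ y ∈ B} : Finset (Finset V)) \
            ({B ∈ img pt pasch1 | x ∈ B ∧ y ∈ B} : Finset (Finset V)))
          ({B ∈ img pt pasch2 | x ∈ B ∧ y ∈ B} : Finset (Finset V)) := by
      refine Disjoint.mono ?_ (Finset.filter_subset _ _) hdisj
      exact (Finset.sdiff_subset).trans (Finset.filter_subset _ _)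
    have h5 : ({B ∈ img pt pasch1 | x ∈ B ∧ y ∈ B} : Finset (Finset V))
        ⊆ ({B ∈ 𝓑 | x ∈ B ∧ y ∈ B} : Finset (Finset V)) :=
      Finset.filter_subset_filter _ hpt
    rw [h3, Finset.card_union_of_disjoint h4, Finset.card_sdiff_of_subset h5]
    have h6 := Finset.card_le_card h5
    omega

/-! ### The design of points and lines of `PG(n,2)` -/

lemma zmod2_add_self (a : ZMod 2) : a + a = 0 := CharTwo.add_self_eq_zero a

lemma vec_add_self {n : ℕ} (v : Fin (n + 1) → ZMod 2) : v + v = 0 := by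
  funext i; exact zmod2_add_self _

lemma add_ne_zero_of_ne {n : ℕ} {x y : Fin (n + 1) → ZMod 2} (h : x ≠ y) : x + y ≠ 0 := by
  intro h0
  apply h
  calc x = x + (y + y) := by rw [vec_add_self, add_zero]
    _ = (x + y) + y := by abel
    _ = y := by rw [h0, zero_add]

/-- The third point of the line through two points. -/
def third {n : ℕ} (p q : Pt n) (h : p ≠ q) : Pt n :=
  ⟨(p : Fin (n + 1) → ZMod 2) + q, add_ne_zero_of_ne (fun h' => h (Subtype.ext h'))⟩

lemma third_ne_left {n : ℕ} (p q : Pt n) (h : p ≠ q) : third p q h ≠ p := by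
  intro h'
  have := congrArg Subtype.val h'
  simp only [third] at this
  exact q.2 (by simpa using this)

lemma third_ne_right {n : ℕ} (p q : Pt n) (h : p ≠ q) : third p q h ≠ q := by
  intro h'
  have := congrArg Subtype.val h'
  simp only [third] at this
  exact p.2 (by simpa using this)

lemma mem_lines_iff {n : ℕ} (p q : Pt n) (h : p ≠ q) (B : Finset (Pt n)) :
    (B ∈ lines n ∧ p ∈ B ∧ q ∈ B) ↔ B = {p, q, third p q h} := by
  constructor
  · rintro ⟨hB, hp, hq⟩
    simp only [lines, mem_filter, mem_univ, true_and] at hB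
    obtain ⟨hcard, hsum⟩ := hB
    have h1 : ({p, q} : Finset (Pt n)) ⊆ B := by
      intro r hr
      simp only [mem_insert, mem_singleton] at hr
      rcases hr with rfl | rfl <;> assumption
    have h2 : #({p, q} : Finset (Pt n)) = 2 := Finset.card_pair h
    obtain ⟨r, hr⟩ : ∃ r, B \ {p, q} = {r} := by
      rw [← Finset.card_eq_one, Finset.card_sdiff_of_subset h1, hcard, h2]
    have h3 : B = {p, q} ∪ {r} := by
      rw [← hr, Finset.union_sdiff_of_subset h1]
    have hrmem : r ∈ B \ {p, q} := by rw [hr]; simp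
    have hrp : r ≠ p := by
      rintro rfl; simp at hrmem
    have hrq : r ≠ q := by
      rintro rfl; simp at hrmem
    have h4 : (p : Fin (n + 1) → ZMod 2) + q + r = 0 := by
      rw [h3, Finset.sum_union (by simp [hrp, hrq]), Finset.sum_pair h,
        Finset.sum_singleton] at hsum
      exact hsum
    have h5 : r = third p q h := by
      apply Subtype.ext
      simp only [third]
      calc (r : Fin (n + 1) → ZMod 2) = 0 + r := by rw [zero_add]
        _ = ((p : Fin (n + 1) → ZMod 2) + q + r) + r := by rw [h4]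
        _ = (p : Fin (n + 1) → ZMod 2) + q + (r + r) := by abel
        _ = (p : Fin (n + 1) → ZMod 2) + q := by rw [vec_add_self, add_zero]
    rw [h3, h5]
    ext s
    simp only [mem_union, mem_insert, mem_singleton]
    tauto
  · rintro rfl
    refine ⟨?_, by simp, by simp⟩
    have hp := third_ne_left p q h
    have hq := third_ne_right p q h
    simp only [lines, mem_filter, mem_univ, true_and]
    refine ⟨Finset.card_eq_three.2 ⟨p, q, _, h, hp.symm, hq.symm, rfl⟩, ?_⟩
    rw [Finset.sum_insert (by simp [h, hp.symm]), Finset.sum_pair hq.symm]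
    simp only [third]
    calc (p : Fin (n + 1) → ZMod 2) + (q + (p + q)) = (p + p) + (q + q) := by abel
      _ = 0 := by rw [vec_add_self, vec_add_self, add_zero]

/-- The points and lines of `PG(n,2)` form a Steiner triple system. -/
theorem isSTS_lines (n : ℕ) : IsSTS (lines n) := by
  refine ⟨fun B hB => ?_, fun p q h => ?_⟩
  · simp only [lines, mem_filter, mem_univ, true_and] at hB
    exact hB.1
  · exact ⟨{p, q, third p q h}, (mem_lines_iff p q h _).2 rfl, fun C hC =>
      (mem_lines_iff p q h C).1 hC⟩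

/-! ### Counting -/

lemma card_biUnion_offDiag {V : Type} [DecidableEq V] (𝓑 U : Finset (Finset V)) (h𝓑 : IsSTS 𝓑)
    (hU : U ⊆ 𝓑) : #(U.biUnion fun B => B.offDiag) = 6 * #U := by
  rw [Finset.card_biUnion]
  · rw [Finset.sum_congr rfl (fun B hB => by
      rw [Finset.offDiag_card, h𝓑.1 B (hU hB)])]
    rw [Finset.sum_const]
    simp [mul_comm]
  · intro B hB C hC hBC
    rw [Function.onFun, Finset.disjoint_left]
    rintro ⟨x, y⟩ h1 h2
    rw [Finset.mem_offDiag] at h1 h2
    obtain ⟨D, -, hD⟩ := h𝓑.2 x y h1.2.2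
    exact hBC ((hD B ⟨hU hB, h1.1, h1.2.1⟩).trans (hD C ⟨hU hC, h2.1, h2.2.1⟩).symm)

lemma card_lines (n : ℕ) :
    (6 * #(lines n) : ℝ) = ((2 : ℝ) ^ (n + 1) - 1) * ((2 : ℝ) ^ (n + 1) - 2) := by
  have h1 := card_biUnion_offDiag (lines n) (lines n) (isSTS_lines n) subset_rfl
  have h2 : ((lines n).biUnion fun B => B.offDiag) = (univ : Finset (Pt n)).offDiag := by
    ext ⟨x, y⟩
    simp only [mem_biUnion, Finset.mem_offDiag, mem_univ, true_and]
    constructor
    · rintro ⟨B, -, -, -, h⟩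
      exact h
    · intro h
      obtain ⟨hB, hx, hy⟩ := (mem_lines_iff x y h {x, y, third x y h}).2 rfl
      exact ⟨_, hB, hx, hy, h⟩
  rw [h2, Finset.offDiag_card] at h1
  have h3 : #(univ : Finset (Pt n)) = 2 ^ (n + 1) - 1 := by
    rw [Finset.card_univ, Fintype.card_subtype_compl]
    simp
  rw [h3] at h1
  have h4 : 1 ≤ 2 ^ (n + 1) := Nat.one_le_two_pow
  have h5 : ((2 ^ (n + 1) - 1 : ℕ) : ℝ) = (2 : ℝ) ^ (n + 1) - 1 := by
    push_cast [h4]
    ring
  have h6 : (2 ^ (n + 1) - 1) ≤ (2 ^ (n + 1) - 1) * (2 ^ (n + 1) - 1) := Nat.le_mul_self _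
  have h7 : (6 * #(lines n) : ℝ) = ((6 * #(lines n) : ℕ) : ℝ) := by push_cast; ring
  rw [h7, ← h1, Nat.cast_sub h6, Nat.cast_mul, h5]
  ring

/-- The words over `𝔽₂²` coding ordered pairs of distinct points on a line of `U`. -/
def pairWords {n : ℕ} (U : Finset (Finset (Pt n))) : Set (Fin (n + 1) → ZMod 2 × ZMod 2) :=
  {w | ∃ B ∈ U, ∃ p ∈ B, ∃ q ∈ B, p ≠ q ∧ (p : Fin (n + 1) → ZMod 2) = (fun i => (w i).1) ∧
    (q : Fin (n + 1) → ZMod 2) = (fun i => (w i).2)}

lemma dens_pairWords {n : ℕ} (U : Finset (Finset (Pt n))) (hU : U ⊆ lines n) :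
    LibH66.dens (pairWords U) = (6 * #U : ℝ) / 4 ^ (n + 1) := by
  classical
  let Φ : Pt n × Pt n → (Fin (n + 1) → ZMod 2 × ZMod 2) := fun p i => (p.1.1 i, p.2.1 i)
  have hΦ : Injective Φ := by
    rintro ⟨p, q⟩ ⟨p', q'⟩ h
    have h1 : p = p' := by
      apply Subtype.ext; funext i
      exact congrArg Prod.fst (congrFun h i)
    have h2 : q = q' := by
      apply Subtype.ext; funext i
      exact congrArg Prod.snd (congrFun h i)
    rw [h1, h2]
  have h1 : ∀ w, w ∈ pairWords U ↔ w ∈ (U.biUnion fun B => B.offDiag).image Φ := by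
    intro w
    simp only [pairWords, Set.mem_ofPred_eq, Finset.mem_image, Finset.mem_biUnion,
      Finset.mem_offDiag]
    constructor
    · rintro ⟨B, hB, p, hp, q, hq, hpq, h1, h2⟩
      refine ⟨(p, q), ⟨B, hB, hp, hq, hpq⟩, ?_⟩
      funext i
      simp only [Φ]
      rw [h1, h2]
    · rintro ⟨⟨p, q⟩, ⟨B, hB, hp, hq, hpq⟩, rfl⟩
      exact ⟨B, hB, p, hp, q, hq, hpq, rfl, rfl⟩
  unfold LibH66.dens
  rw [Fintype.expect_eq_sum_div_card]
  have h2 : ∑ w : Fin (n + 1) → ZMod 2 × ZMod 2,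
      (pairWords U).indicator (1 : (Fin (n + 1) → ZMod 2 × ZMod 2) → ℝ) w
      = #((U.biUnion fun B => B.offDiag).image Φ) := by
    rw [Finset.card_eq_sum_ones, Nat.cast_sum,
      ← Finset.sum_subset (Finset.subset_univ ((U.biUnion fun B => B.offDiag).image Φ))]
    · refine Finset.sum_congr rfl fun w hw => ?_
      rw [Set.indicator_of_mem ((h1 w).2 hw)]
      simp
    · intro w _ hw
      rw [Set.indicator_of_notMem (fun h => hw ((h1 w).1 h))]
  rw [h2, Finset.card_image_of_injective _ hΦ, card_biUnion_offDiag (lines n) U (isSTS_lines n) hU]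
  simp

/-- If the complement of a defining set contained a combinatorial line of pairs, it would contain
a Pasch configuration. -/
lemma lineFree_pairWords {n : ℕ} (S : Finset (Finset (Pt n))) (hS : IsDefiningSet (lines n) S) :
    LibH66.LineFree (pairWords (lines n \ S)) := by
  classical
  intro l
  by_contra hcon
  push Not at hcon
  -- the four pairs
  set X : ZMod 2 × ZMod 2 → (Fin (n + 1) → ZMod 2) := fun c i => (l c i).1 with hX
  set Y : ZMod 2 × ZMod 2 → (Fin (n + 1) → ZMod 2) := fun c i => (l c i).2 with hY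
  have hmem : ∀ c : ZMod 2 × ZMod 2, ∃ p q : Pt n, ∃ h : p ≠ q, p.1 = X c ∧ q.1 = Y c ∧
      ({p, q, third p q h} : Finset (Pt n)) ∈ lines n \ S := by
    intro c
    obtain ⟨B, hB, p, hp, q, hq, hpq, h1, h2⟩ := hcon c
    refine ⟨p, q, hpq, h1, h2, ?_⟩
    rw [← (mem_lines_iff p q hpq B).1 ⟨(Finset.mem_sdiff.1 hB).1, hp, hq⟩]
    exact hB
  -- `X c` depends on the first, `Y c` on the second component only
  have hX1 : ∀ a b : ZMod 2, X (a, b) = X (a, 0) := by
    intro a b
    funext i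
    simp only [hX, Line.coe_apply]
    cases l.idxFun i <;> rfl
  have hY1 : ∀ a b : ZMod 2, Y (a, b) = Y (0, b) := by
    intro a b
    funext i
    simp only [hY, Line.coe_apply]
    cases l.idxFun i <;> rfl
  have hXY : X (1, 0) + X (0, 0) = Y (0, 1) + Y (0, 0) := by
    funext i
    simp only [hX, hY, Line.coe_apply, Pi.add_apply]
    cases l.idxFun i <;> simp [zmod2_add_self]
  have hXne : X (1, 0) ≠ X (0, 0) := by
    obtain ⟨i, hi⟩ := l.proper
    intro h
    have := congrFun h i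
    simp [hX, hi] at this
  have hYne : Y (0, 1) ≠ Y (0, 0) := by
    obtain ⟨i, hi⟩ := l.proper
    intro h
    have := congrFun h i
    simp [hY, hi] at this
  obtain ⟨x0, y0, h00, hx0, hy0, hB0⟩ := hmem (0, 0)
  obtain ⟨x1, y1, h11, hx1, hy1, hB1⟩ := hmem (1, 1)
  obtain ⟨x1', y0', h10, hx1', hy0', hB2⟩ := hmem (1, 0)
  obtain ⟨x0', y1', h01, hx0', hy1', hB3⟩ := hmem (0, 1)
  have e1 : x1' = x1 := Subtype.ext (by rw [hx1', hx1, hX1 1 1])
  have e2 : y0' = y0 := Subtype.ext (by rw [hy0', hy0, hY1 1 0])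
  have e3 : x0' = x0 := Subtype.ext (by rw [hx0', hx0, hX1 0 1])
  have e4 : y1' = y1 := Subtype.ext (by rw [hy1', hy1, hY1 1 1])
  rw [e1] at hx1' ; rw [e2] at hy0'; rw [e3] at hx0'; rw [e4] at hy1'
  have h10' : x1 ≠ y0 := by rw [← e1, ← e2]; exact h10
  have h01' : x0 ≠ y1 := by rw [← e3, ← e4]; exact h01
  have hB2' : ({x1, y0, third x1 y0 h10'} : Finset (Pt n)) ∈ lines n \ S := by
    subst e1 e2; exact hB2
  have hB3' : ({x0, y1, third x0 y1 h01'} : Finset (Pt n)) ∈ lines n \ S := by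
    subst e3 e4; exact hB3
  have hsum : (x1 : Fin (n + 1) → ZMod 2) + x0 = y1 + y0 := by
    rw [hx1', hx0, hy1', hy0]; exact hXY
  have hx01 : x0 ≠ x1 := fun h => hXne (by rw [← hx1', ← hx0, h])
  have hy01 : y0 ≠ y1 := fun h => hYne (by rw [← hy1', ← hy0, h])
  have ez0 : third x1 y1 h11 = third x0 y0 h00 := by
    apply Subtype.ext
    simp only [third]
    calc (x1 : Fin (n + 1) → ZMod 2) + y1 = (x1 + x0) + (x0 + x0) + x0 + y1 := by
          rw [vec_add_self, add_zero, add_assoc (x1 : Fin (n + 1) → ZMod 2), vec_add_self,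
            add_zero]
      _ = (y1 + y0) + x0 + y1 := by rw [vec_add_self, add_zero, hsum]
      _ = (x0 + y0) + (y1 + y1) := by abel
      _ = x0 + y0 := by rw [vec_add_self, add_zero]
  have ez1 : third x0 y1 h01' = third x1 y0 h10' := by
    apply Subtype.ext
    simp only [third]
    calc (x0 : Fin (n + 1) → ZMod 2) + y1 = (x1 + x1) + x0 + y1 := by
          rw [vec_add_self, zero_add]
      _ = x1 + (x1 + x0) + y1 := by abel
      _ = x1 + (y1 + y0) + y1 := by rw [hsum]
      _ = x1 + y0 + (y1 + y1) := by abel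
      _ = x1 + y0 := by rw [vec_add_self, add_zero]
  set z0 := third x0 y0 h00 with hz0
  set z1 := third x1 y0 h10' with hz1
  rw [ez0] at hB1
  rw [ez1] at hB3'
  have n1 : z0 ≠ x0 := third_ne_left _ _ _
  have n2 : z0 ≠ y0 := third_ne_right _ _ _
  have n3 : z0 ≠ x1 := by rw [← ez0]; exact third_ne_left _ _ _
  have n4 : z0 ≠ y1 := by rw [← ez0]; exact third_ne_right _ _ _
  have n5 : z1 ≠ x1 := third_ne_left _ _ _
  have n6 : z1 ≠ y0 := third_ne_right _ _ _
  have n7 : z1 ≠ x0 := by rw [← ez1]; exact third_ne_left _ _ _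
  have n8 : z1 ≠ y1 := by rw [← ez1]; exact third_ne_right _ _ _
  have n9 : z0 ≠ z1 := by
    intro h
    have := congrArg Subtype.val h
    simp only [hz0, hz1, third, add_left_inj] at this
    exact hx01 (Subtype.ext this)
  let f : Fin 6 → Pt n := ![x0, x1, y0, y1, z0, z1]
  have hf : Injective f := by
    intro i j hij
    fin_cases i <;> fin_cases j <;>
      first
        | rfl
        | (exfalso
           simp only [f] at hij
           first
             | exact hx01 hij | exact hx01 hij.symm | exact hy01 hij | exact hy01 hij.symm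
             | exact h00 hij | exact h00 hij.symm | exact h11 hij | exact h11 hij.symm
             | exact h10' hij | exact h10' hij.symm | exact h01' hij | exact h01' hij.symm
             | exact n1 hij | exact n1 hij.symm | exact n2 hij | exact n2 hij.symm
             | exact n3 hij | exact n3 hij.symm | exact n4 hij | exact n4 hij.symm
             | exact n5 hij | exact n5 hij.symm | exact n6 hij | exact n6 hij.symm
             | exact n7 hij | exact n7 hij.symm | exact n8 hij | exact n8 hij.symm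
             | exact n9 hij | exact n9 hij.symm)
  let pt : Fin 6 ↪ Pt n := ⟨f, hf⟩
  have himg : img pt pasch1 ⊆ lines n \ S := by
    intro B hB
    obtain ⟨b, hb, rfl⟩ := Finset.mem_image.1 hB
    simp only [pasch1, Finset.mem_insert, Finset.mem_singleton] at hb
    rcases hb with rfl | rfl | rfl | rfl
    · simpa [pt, f] using hB0
    · simpa [pt, f] using hB2'
    · simpa [pt, f] using hB3'
    · simpa [pt, f] using hB1
  obtain ⟨h1, h2⟩ := sts_switch (lines n) (isSTS_lines n) pt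
    (himg.trans Finset.sdiff_subset)
  have h3 : S ⊆ (lines n \ img pt pasch1) ∪ img pt pasch2 := by
    intro B hB
    refine Finset.mem_union_left _ (Finset.mem_sdiff.2 ⟨hS.1 hB, fun h => ?_⟩)
    exact (Finset.mem_sdiff.1 (himg h)).2 hB
  have h4 := hS.2 _ h1 h3
  have h5 : Finset.map pt {0, 2, 5} ∈ img pt pasch2 :=
    Finset.mem_image_of_mem _ (by decide)
  have h6 : Finset.map pt {0, 2, 5} ∈ lines n := by
    rw [← h4]
    exact Finset.mem_union_right _ h5
  exact (Finset.disjoint_left.1 h2 h6) h5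

/-- **Main theorem.** The fraction `μ_n` of blocks in a smallest defining set of the design of
points and lines of `PG(n,2)` tends to `1`. -/
theorem result : Filter.Tendsto mu Filter.atTop (nhds 1) := by
  classical
  rw [Metric.tendsto_atTop]
  intro ε hε
  obtain ⟨N, hN⟩ := (LibH66.densLine (ZMod 2 × ZMod 2)).all (ε / 8) (by linarith)
  refine ⟨max N 1, fun n hn => ?_⟩
  have hn1 : 1 ≤ n := le_trans (le_max_right _ _) hn
  have hnN : N ≤ n := le_trans (le_max_left _ _) hn
  -- a smallest defining set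
  have hne : {s : ℕ | ∃ S : Finset (Finset (Pt n)), IsDefiningSet (lines n) S ∧ S.card = s}.Nonempty := by
    refine ⟨_, lines n, ⟨subset_rfl, fun 𝓑' h𝓑' hsub => ?_⟩, rfl⟩
    apply Finset.Subset.antisymm _ hsub
    intro B hB
    obtain ⟨x, y, z, hxy, hxz, hyz, rfl⟩ := Finset.card_eq_three.1 (h𝓑'.1 B hB)
    obtain ⟨C, hC, huniq⟩ := h𝓑'.2 x y hxy
    obtain ⟨D, hD, -⟩ := (isSTS_lines n).2 x y hxy
    have h1 := huniq _ ⟨hB, by simp, by simp⟩
    have h2 := huniq D ⟨hsub hD.1, hD.2.1, hD.2.2⟩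
    rw [h1, ← h2]
    exact hD.1
  obtain ⟨S, hS, hScard⟩ := Nat.sInf_mem hne
  change #S = minDef n at hScard
  have hlf := lineFree_pairWords S hS
  have hdens := hN (Fin (n + 1)) (by simp; omega) _ hlf
  rw [dens_pairWords _ Finset.sdiff_subset, Finset.card_sdiff_of_subset hS.1,
    Nat.cast_sub (Finset.card_le_card hS.1), hScard] at hdens
  have hb := card_lines n
  have hle : (minDef n : ℝ) ≤ #(lines n) := by
    rw [← hScard]
    exact_mod_cast Finset.card_le_card hS.1
  set b : ℝ := (#(lines n) : ℝ) with hbdef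
  have hpow : (4 : ℝ) ^ (n + 1) = (2 : ℝ) ^ (n + 1) * (2 : ℝ) ^ (n + 1) := by
    rw [← mul_pow]; norm_num
  have hQ : (4 : ℝ) ≤ (2 : ℝ) ^ (n + 1) := by
    calc (4 : ℝ) = 2 ^ 2 := by norm_num
      _ ≤ 2 ^ (n + 1) := by
        apply pow_le_pow_right₀ (by norm_num)
        omega
  set Q : ℝ := (2 : ℝ) ^ (n + 1) with hQdef
  have hb6 : Q * Q / 4 ≤ 6 * b := by
    rw [hb]
    nlinarith
  have hb0 : 0 < b := by nlinarith
  have hmu : mu n = (minDef n : ℝ) / b := by
    unfold mu
    rw [← hQdef, ← hb]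
    congr 1
    ring
  rw [div_le_iff₀ (by rw [hpow]; positivity), hpow] at hdens
  rw [Real.dist_eq, hmu]
  have h1 : (minDef n : ℝ) / b ≤ 1 := by
    rw [div_le_one hb0]
    exact hle
  have h2 : 1 - ε / 2 ≤ (minDef n : ℝ) / b := by
    rw [le_div_iff₀ hb0]
    nlinarith
  rw [abs_of_nonpos (by linarith)]
  linarith

end Pool.Agent.Results.MP_bc5946_co.LimitOne
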